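import Mathlib

set_option autoImplicit false

open MeasureTheory Set Filter Topology

namespace Pool.Agent.Lib_helper98.LIS

/-- Strict comparability in both coordinates. -/
def Comp (p q : ℝ × ℝ) : Prop := (p.1 < q.1 ∧ p.2 < q.2) ∨ (q.1 < p.1 ∧ q.2 < p.2)

/-- `s` is a chain of points of `x` lying in `A`. -/
def Good {ι : Type*} (A : Set (ℝ × ℝ)) (x : ι → ℝ × ℝ) (s : Finset ι) : Prop :=
  (∀ i ∈ s, x i ∈ A) ∧ ∀ i ∈ s, ∀ j ∈ s, i ≠ j → Comp (x i) (x j)

/-- Largest chain among the points of `x` lying in `A`. -/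
noncomputable def LA {ι : Type*} [Fintype ι] (A : Set (ℝ × ℝ)) (x : ι → ℝ × ℝ) : ℕ :=
  by classical exact (Finset.univ : Finset (Finset ι)).sup fun s => if Good A x s then s.card else 0

section basic

variable {ι : Type*} [Fintype ι]

lemma le_LA {A : Set (ℝ × ℝ)} {x : ι → ℝ × ℝ} {s : Finset ι} (h : Good A x s) :
    s.card ≤ LA A x := by
  classical
  unfold LA
  have := Finset.le_sup (f := fun s : Finset ι => if Good A x s then s.card else 0)
    (Finset.mem_univ s)
  simpa [h] using this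

lemma exists_LA (A : Set (ℝ × ℝ)) (x : ι → ℝ × ℝ) : ∃ s : Finset ι, Good A x s ∧ s.card = LA A x := by
  classical
  have h0 : Good A x (∅ : Finset ι) := ⟨by simp, by simp⟩
  obtain ⟨s, -, hs⟩ := Finset.exists_mem_eq_sup (Finset.univ : Finset (Finset ι))
    ⟨∅, Finset.mem_univ _⟩ (fun s : Finset ι => if Good A x s then s.card else 0)
  by_cases hg : Good A x s
  · refine ⟨s, hg, ?_⟩
    unfold LA
    rw [hs, if_pos hg]
  · refine ⟨∅, h0, ?_⟩
    unfold LA
    rw [hs, if_neg hg]
    simp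

lemma LA_le_card (A : Set (ℝ × ℝ)) (x : ι → ℝ × ℝ) : LA A x ≤ Fintype.card ι := by
  obtain ⟨s, -, hs⟩ := exists_LA A x
  rw [← hs]
  exact Finset.card_le_univ s

lemma LA_univ_eq_sSup (x : ι → ℝ × ℝ) :
    sSup {k : ℕ | ∃ s : Finset ι, s.card = k ∧
      ∀ i ∈ s, ∀ j ∈ s, i ≠ j →
        (((x i).1 < (x j).1 ∧ (x i).2 < (x j).2) ∨
         ((x j).1 < (x i).1 ∧ (x j).2 < (x i).2))} = LA univ x := by
  obtain ⟨s, hg, hs⟩ := exists_LA univ x
  apply le_antisymm
  · apply csSup_le
    · exact ⟨s.card, s, rfl, hg.2⟩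
    · rintro k ⟨t, rfl, ht⟩
      exact le_LA ⟨by simp, ht⟩
  · apply le_csSup
    · refine ⟨Fintype.card ι, ?_⟩
      rintro k ⟨t, rfl, ht⟩
      exact Finset.card_le_univ t
    · exact ⟨s, hs, hg.2⟩

/-- Superadditivity over two ordered regions. -/
lemma LA_add_le {A C R : Set (ℝ × ℝ)} (hA : A ⊆ R) (hC : C ⊆ R)
    (hAC : ∀ p ∈ A, ∀ q ∈ C, p.1 < q.1 ∧ p.2 < q.2) (x : ι → ℝ × ℝ) :
    LA A x + LA C x ≤ LA R x := by
  classical
  obtain ⟨s, hs, hs'⟩ := exists_LA A x
  obtain ⟨t, ht, ht'⟩ := exists_LA C x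
  have hdisj : Disjoint s t := by
    rw [Finset.disjoint_left]
    intro i his hit
    have := hAC _ (hs.1 i his) _ (ht.1 i hit)
    exact lt_irrefl _ this.1
  rw [← hs', ← ht', ← Finset.card_union_of_disjoint hdisj]
  apply le_LA
  refine ⟨?_, ?_⟩
  · intro i hi
    rcases Finset.mem_union.1 hi with h | h
    · exact hA (hs.1 i h)
    · exact hC (ht.1 i h)
  · intro i hi j hj hij
    rcases Finset.mem_union.1 hi with h | h <;> rcases Finset.mem_union.1 hj with h' | h'
    · exact hs.2 i h j h' hij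
    · exact Or.inl (hAC _ (hs.1 i h) _ (ht.1 j h'))
    · exact Or.inr (hAC _ (hs.1 j h') _ (ht.1 i h))
    · exact ht.2 i h j h' hij

omit [Fintype ι] in
lemma measurable_finset_sup {κ δ : Type*} [MeasurableSpace δ] (S : Finset κ) (f : κ → δ → ℕ)
    (hf : ∀ k ∈ S, Measurable (f k)) : Measurable (fun x => S.sup fun k => f k x) := by
  classical
  induction S using Finset.induction_on with
  | empty => simp
  | insert a S ha ih =>
    simp only [Finset.sup_insert]
    exact (hf a (Finset.mem_insert_self a S)).sup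
      (ih fun k hk => hf k (Finset.mem_insert_of_mem hk))

lemma measurable_LA {A : Set (ℝ × ℝ)} (hA : MeasurableSet A) :
    Measurable (fun x : ι → ℝ × ℝ => LA A x) := by
  classical
  unfold LA
  apply measurable_finset_sup
  intro s _
  refine Measurable.ite ?_ measurable_const measurable_const
  have h1 : {x : ι → ℝ × ℝ | Good A x s} =
      (⋂ i ∈ s, (fun x : ι → ℝ × ℝ => x i) ⁻¹' A) ∩
      ⋂ i ∈ s, ⋂ j ∈ s, ⋂ (_ : i ≠ j), {x : ι → ℝ × ℝ | Comp (x i) (x j)} := by
    ext x
    simp [Good]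
  rw [h1]
  refine MeasurableSet.inter ?_ ?_
  · exact Finset.measurableSet_biInter _ fun i _ => measurable_pi_apply i hA
  · refine Finset.measurableSet_biInter _ fun i _ => Finset.measurableSet_biInter _ fun j _ =>
      MeasurableSet.iInter fun _ => ?_
    unfold Comp
    have e1 : ∀ i : ι, Measurable fun x : ι → ℝ × ℝ => (x i).1 := fun i =>
      measurable_fst.comp (measurable_pi_apply i)
    have e2 : ∀ i : ι, Measurable fun x : ι → ℝ × ℝ => (x i).2 := fun i =>
      measurable_snd.comp (measurable_pi_apply i)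
    exact ((measurableSet_lt (e1 i) (e1 j)).inter (measurableSet_lt (e2 i) (e2 j))).union
      ((measurableSet_lt (e1 j) (e1 i)).inter (measurableSet_lt (e2 j) (e2 i)))

/-- Only the points in `A` matter: reindexing by a subtype containing exactly the points in `A`. -/
lemma LA_eq_subtype {κ : Type*} [Fintype κ] {A : Set (ℝ × ℝ)} (x : ι → ℝ × ℝ) (e : κ ↪ ι)
    (h1 : ∀ k, x (e k) ∈ A) (h2 : ∀ i, x i ∈ A → i ∈ Set.range e) :
    LA A x = LA univ (fun k => x (e k)) := by
  classical
  apply le_antisymm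
  · obtain ⟨s, hs, hs'⟩ := exists_LA A x
    rw [← hs']
    have hsub : ∀ i ∈ s, i ∈ Set.range e := fun i hi => h2 i (hs.1 i hi)
    let t : Finset κ := Finset.univ.filter fun k => e k ∈ s
    have ht : t.map e = s := by
      ext i
      simp only [t, Finset.mem_map, Finset.mem_filter, Finset.mem_univ, true_and]
      constructor
      · rintro ⟨k, hk, rfl⟩; exact hk
      · intro hi
        obtain ⟨k, rfl⟩ := hsub i hi
        exact ⟨k, hi, rfl⟩
    rw [← ht, Finset.card_map]
    apply le_LA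
    refine ⟨by simp, ?_⟩
    intro i hi j hj hij
    have hi' : e i ∈ s := by simpa [t] using hi
    have hj' : e j ∈ s := by simpa [t] using hj
    exact hs.2 _ hi' _ hj' (fun h => hij (e.injective h))
  · obtain ⟨t, ht, ht'⟩ := exists_LA univ (fun k => x (e k))
    rw [← ht', ← Finset.card_map e]
    apply le_LA
    refine ⟨?_, ?_⟩
    · intro i hi
      obtain ⟨k, -, rfl⟩ := Finset.mem_map.1 hi
      exact h1 k
    · intro i hi j hj hij
      obtain ⟨k, hk, rfl⟩ := Finset.mem_map.1 hi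
      obtain ⟨l, hl, rfl⟩ := Finset.mem_map.1 hj
      exact ht.2 k hk l hl (fun h => hij (by rw [h]))

/-- Translation invariance. -/
lemma LA_univ_translate (v : ℝ × ℝ) (x : ι → ℝ × ℝ) :
    LA univ (fun i => x i + v) = LA univ x := by
  have h : ∀ s : Finset ι, Good univ (fun i => x i + v) s ↔ Good univ x s := by
    intro s
    simp [Good, Comp]
  apply le_antisymm
  · obtain ⟨s, hs, hs'⟩ := exists_LA univ (fun i => x i + v)
    rw [← hs']
    exact le_LA ((h s).1 hs)
  · obtain ⟨s, hs, hs'⟩ := exists_LA univ x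
    rw [← hs']
    exact le_LA ((h s).2 hs)

end basic

end Pool.Agent.Lib_helper98.LIS
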