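import Mathlib
import Pool.Agent.Lib_helper98.LISPoisson

set_option autoImplicit false

open MeasureTheory Set Filter Topology

namespace Pool.Agent.Lib_helper98.LIS

/-- The integral of the longest chain over `A ^ n`. -/
noncomputable def I (A : Set (ℝ × ℝ)) (n : ℕ) : ℝ :=
  ∫ x in Set.univ.pi (fun _ : Fin n => A), (LA univ x : ℝ)

/-- Poisson expectation of the longest chain in `A`. -/
noncomputable def G (A : Set (ℝ × ℝ)) : ℝ :=
  ∑' n : ℕ, Real.exp (-(volume.real A)) / (n.factorial : ℝ) * I A n

lemma integral_subtype_eq {κ : Type*} [Fintype κ] (A : Set (ℝ × ℝ)) (n : ℕ) (e : κ ≃ Fin n) :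
    ∫ x in Set.univ.pi (fun _ : κ => A), (LA univ x : ℝ) = I A n := by
  unfold I
  have hmp := volume_measurePreserving_piCongrLeft (fun _ : Fin n => ℝ × ℝ) e
  have key := hmp.setIntegral_preimage_emb
    (MeasurableEquiv.piCongrLeft (fun _ : Fin n => ℝ × ℝ) e).measurableEmbedding
    (fun x : Fin n → ℝ × ℝ => (LA univ x : ℝ)) (Set.univ.pi (fun _ : Fin n => A))
  rw [← key]
  have hpre : (MeasurableEquiv.piCongrLeft (fun _ : Fin n => ℝ × ℝ) e) ⁻¹'
      (Set.univ.pi (fun _ : Fin n => A)) = Set.univ.pi (fun _ : κ => A) := by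
    rw [MeasurableEquiv.coe_piCongrLeft, Equiv.piCongrLeft_preimage_univ_pi]
  rw [hpre]
  congr 1
  ext x
  congr 1
  rw [LA_eq_subtype (A := univ)
    ((MeasurableEquiv.piCongrLeft (fun _ : Fin n => ℝ × ℝ) e) x) e.toEmbedding (by simp)
    (fun i _ => ⟨e.symm i, by simp⟩)]
  congr 1
  ext k : 1
  rw [MeasurableEquiv.coe_piCongrLeft]
  simp [Equiv.piCongrLeft_apply_apply]

lemma integral_box_pred {n : ℕ} (p : Fin n → Prop) [DecidablePred p] {A B : Set (ℝ × ℝ)}
    (hA : MeasurableSet A) (hB : MeasurableSet B) (hAB : Disjoint A B) :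
    ∫ x in Set.univ.pi (fun i : Fin n => if p i then A else B), (LA A x : ℝ)
      = (volume.real B) ^ (Fintype.card {i // ¬ p i}) * I A (Fintype.card {i // p i}) := by
  classical
  have hmeas : MeasurableSet (Set.univ.pi (fun i : Fin n => if p i then A else B)) := by
    apply MeasurableSet.univ_pi
    intro i
    split_ifs
    · exact hA
    · exact hB
  have hmp := volume_preserving_piEquivPiSubtypeProd (fun _ : Fin n => ℝ × ℝ) p
  have hpre : (MeasurableEquiv.piEquivPiSubtypeProd (fun _ : Fin n => ℝ × ℝ) p) ⁻¹'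
      ((Set.univ.pi (fun _ : {i // p i} => A)) ×ˢ (Set.univ.pi (fun _ : {i // ¬ p i} => B)))
      = Set.univ.pi (fun i : Fin n => if p i then A else B) := by
    ext x
    simp only [MeasurableEquiv.piEquivPiSubtypeProd, Equiv.piEquivPiSubtypeProd,
      MeasurableEquiv.coe_mk, Equiv.coe_fn_mk, Set.mem_preimage, Set.mem_prod, Set.mem_pi,
      Set.mem_univ, forall_true_left, Subtype.forall]
    constructor
    · rintro ⟨h1, h2⟩ i
      by_cases hi : p i
      · simpa [hi] using h1 i hi
      · simpa [hi] using h2 i hi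
    · intro h
      refine ⟨fun i hi => by simpa [hi] using h i, fun i hi => by simpa [hi] using h i⟩
  have step1 : ∫ x in Set.univ.pi (fun i : Fin n => if p i then A else B), (LA A x : ℝ)
      = ∫ x in Set.univ.pi (fun i : Fin n => if p i then A else B),
        ((LA univ (fun k : {i // p i} => x k) : ℝ) * 1) := by
    apply setIntegral_congr_fun hmeas
    intro x hx
    simp only [Set.mem_pi, Set.mem_univ, forall_true_left] at hx
    simp only [mul_one]
    congr 1
    apply LA_eq_subtype x (Function.Embedding.subtype p)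
    · rintro ⟨k, hk⟩
      simpa [hk] using hx k
    · intro i hi
      by_contra hcon
      have hiS : ¬ p i := fun h => hcon ⟨⟨i, h⟩, rfl⟩
      have : x i ∈ B := by simpa [hiS] using hx i
      exact (Set.disjoint_left.1 hAB) hi this
  rw [step1, ← hpre]
  have key := hmp.setIntegral_preimage_emb
    (MeasurableEquiv.piEquivPiSubtypeProd (fun _ : Fin n => ℝ × ℝ) p).measurableEmbedding
    (fun z : ({i // p i} → ℝ × ℝ) × ({i // ¬ p i} → ℝ × ℝ) => (LA univ z.1 : ℝ) * (1 : ℝ))
    ((Set.univ.pi (fun _ : {i // p i} => A)) ×ˢ (Set.univ.pi (fun _ : {i // ¬ p i} => B)))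
  have key2 := setIntegral_prod_mul (μ := (volume : Measure ({i // p i} → ℝ × ℝ)))
    (ν := (volume : Measure ({i // ¬ p i} → ℝ × ℝ)))
    (fun z : ({i // p i} → ℝ × ℝ) => (LA univ z : ℝ)) (fun _ => (1 : ℝ))
    (Set.univ.pi (fun _ : {i // p i} => A)) (Set.univ.pi (fun _ : {i // ¬ p i} => B))
  refine Eq.trans ?_ (key.trans (key2.trans ?_))
  · rfl
  · rw [mul_comm]
    congr 1
    · simp only [integral_const, smul_eq_mul, mul_one, MeasurableSet.univ, measureReal_restrict_apply,
        Set.univ_inter]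
      rw [measureReal_def, volume_pi_pi]
      simp [measureReal_def, ENNReal.toReal_pow]
    · exact integral_subtype_eq A _ (Fintype.equivFin _)

lemma integral_box {n : ℕ} (S : Finset (Fin n)) {A B : Set (ℝ × ℝ)} (hA : MeasurableSet A)
    (hB : MeasurableSet B) (hAB : Disjoint A B) :
    ∫ x in Set.univ.pi (fun i : Fin n => if i ∈ S then A else B), (LA A x : ℝ)
      = (volume.real B) ^ (n - S.card) * I A S.card := by
  classical
  have h := integral_box_pred (fun i => i ∈ S) hA hB hAB
  have h1 : @Fintype.card {i // i ∈ S} (Subtype.fintype _) = S.card := by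
    rw [Fintype.card_subtype]
    simp
  have h2 : Fintype.card {i // ¬ i ∈ S} = n - S.card := by
    rw [Fintype.card_subtype]
    rw [Finset.filter_not, Finset.card_sdiff_of_subset (Finset.filter_subset _ _)]
    simp
  rw [h2] at h
  rw [h]
  congr 2

/-- The integrand is bounded and measurable, hence integrable on boxes of finite volume. -/
lemma integrableOn_LA {ι : Type*} [Fintype ι] {A : Set (ℝ × ℝ)} (hA : MeasurableSet A)
    {T : Set (ι → ℝ × ℝ)} (hT : volume T ≠ ⊤) :
    IntegrableOn (fun x : ι → ℝ × ℝ => (LA A x : ℝ)) T := by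
  apply Measure.integrableOn_of_bounded (M := (Fintype.card ι : ℝ)) hT
  · exact ((measurable_from_top (f := fun n : ℕ => (n : ℝ))).comp
      (measurable_LA hA)).aestronglyMeasurable
  · refine Filter.Eventually.of_forall fun x => ?_
    rw [Real.norm_of_nonneg (by positivity)]
    exact_mod_cast LA_le_card A x

lemma volume_pi_ne_top {n : ℕ} {B : Fin n → Set (ℝ × ℝ)} (hB : ∀ i, volume (B i) ≠ ⊤) :
    volume (Set.univ.pi B) ≠ ⊤ := by
  rw [volume_pi_pi]
  exact ENNReal.prod_ne_top fun i _ => hB i

lemma integral_restrict (n : ℕ) {A R : Set (ℝ × ℝ)} (hA : MeasurableSet A)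
    (hR : MeasurableSet R) (hAR : A ⊆ R) (hfin : volume R ≠ ⊤) :
    ∫ x in Set.univ.pi (fun _ : Fin n => R), (LA A x : ℝ)
      = ∑ m ∈ Finset.range (n + 1), (n.choose m : ℝ) *
          ((volume.real (R \ A)) ^ (n - m) * I A m) := by
  classical
  have hB : MeasurableSet (R \ A) := hR.diff hA
  have hAfin : volume A ≠ ⊤ := ne_top_of_le_ne_top hfin (measure_mono hAR)
  have hBfin : volume (R \ A) ≠ ⊤ := ne_top_of_le_ne_top hfin (measure_mono sdiff_subset)
  have hunion : Set.univ.pi (fun _ : Fin n => R) =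
      ⋃ S ∈ (Finset.univ : Finset (Finset (Fin n))),
        Set.univ.pi (fun i : Fin n => if i ∈ S then A else R \ A) := by
    ext x
    simp only [Set.mem_pi, Set.mem_univ, forall_true_left, Finset.mem_univ, Set.iUnion_true,
      Set.mem_iUnion]
    constructor
    · intro h
      refine ⟨Finset.univ.filter fun i => x i ∈ A, fun i => ?_⟩
      by_cases hi : x i ∈ A
      · simp [hi]
      · simp [hi, h i]
    · rintro ⟨S, hS⟩ i
      have := hS i
      by_cases hi : i ∈ S
      · rw [if_pos hi] at this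
        exact hAR this
      · rw [if_neg hi] at this
        exact this.1
  rw [hunion, integral_biUnion_finset]
  · have : ∀ S ∈ (Finset.univ : Finset (Finset (Fin n))),
        ∫ x in Set.univ.pi (fun i : Fin n => if i ∈ S then A else R \ A), (LA A x : ℝ)
        = (fun m => (volume.real (R \ A)) ^ (n - m) * I A m) S.card := fun S _ =>
      integral_box S hA hB disjoint_sdiff_right
    rw [Finset.sum_congr rfl this, ← Finset.powerset_univ,
      Finset.sum_powerset_apply_card (fun m => (volume.real (R \ A)) ^ (n - m) * I A m)]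
    simp [Finset.card_univ, nsmul_eq_mul]
  · intro S _
    apply MeasurableSet.univ_pi
    intro i
    split_ifs
    · exact hA
    · exact hB
  · intro S _ T _ hST
    rw [Function.onFun, Set.disjoint_left]
    intro x hxS hxT
    apply hST
    ext i
    have h1 := hxS i (Set.mem_univ i)
    have h2 := hxT i (Set.mem_univ i)
    simp only at h1 h2
    by_cases hi : i ∈ S <;> by_cases hj : i ∈ T <;> simp [hi, hj] at h1 h2 ⊢
    · exact h2.2 h1
    · exact h1.2 h2
  · intro S _
    apply integrableOn_LA hA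
    apply volume_pi_ne_top
    intro i
    split_ifs
    · exact hAfin
    · exact hBfin

lemma I_nonneg (A : Set (ℝ × ℝ)) (n : ℕ) : 0 ≤ I A n := by
  unfold I
  apply integral_nonneg
  intro x
  exact Nat.cast_nonneg _

lemma volume_real_pi (n : ℕ) (A : Set (ℝ × ℝ)) :
    volume.real (Set.univ.pi (fun _ : Fin n => A)) = (volume.real A) ^ n := by
  rw [measureReal_def, volume_pi_pi]
  simp [measureReal_def, ENNReal.toReal_pow]

lemma integral_LA_le (n : ℕ) {A R : Set (ℝ × ℝ)} (hA : MeasurableSet A) (hR : MeasurableSet R)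
    (hfin : volume R ≠ ⊤) :
    ∫ x in Set.univ.pi (fun _ : Fin n => R), (LA A x : ℝ) ≤ n * (volume.real R) ^ n := by
  have hT : volume (Set.univ.pi (fun _ : Fin n => R)) ≠ ⊤ := volume_pi_ne_top fun _ => hfin
  calc ∫ x in Set.univ.pi (fun _ : Fin n => R), (LA A x : ℝ)
      ≤ ∫ x in Set.univ.pi (fun _ : Fin n => R), (n : ℝ) := by
        apply setIntegral_mono_on (integrableOn_LA hA hT) (integrableOn_const hT)
          (MeasurableSet.univ_pi fun _ => hR)
        intro x _
        have := LA_le_card A x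
        rw [Fintype.card_fin] at this
        exact_mod_cast this
    _ = n * (volume.real R) ^ n := by
        rw [setIntegral_const, volume_real_pi, smul_eq_mul, mul_comm]

lemma I_le {A : Set (ℝ × ℝ)} (hA : MeasurableSet A) (hfin : volume A ≠ ⊤) (n : ℕ) :
    I A n ≤ n * (volume.real A) ^ n := integral_LA_le n MeasurableSet.univ hA hfin

lemma summable_nat_mul_pow_div (v : ℝ) :
    Summable fun n : ℕ => (n : ℝ) * v ^ n / (n.factorial : ℝ) := by
  have h := (Real.summable_pow_div_factorial v).mul_left v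
  rw [← summable_nat_add_iff 1]
  refine h.congr fun n => ?_
  rw [Nat.factorial_succ, pow_succ]
  push_cast
  field_simp

lemma summable_I {A : Set (ℝ × ℝ)} (hA : MeasurableSet A) (hfin : volume A ≠ ⊤) :
    Summable fun n : ℕ => I A n / (n.factorial : ℝ) := by
  refine Summable.of_nonneg_of_le (fun n => div_nonneg (I_nonneg A n) (by positivity)) (fun n => ?_)
    (summable_nat_mul_pow_div (volume.real A))
  gcongr
  exact I_le hA hfin n

/-- The restriction property of the Poisson process, for the longest chain. -/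
lemma hasSum_restrict {A R : Set (ℝ × ℝ)} (hA : MeasurableSet A)
    (hR : MeasurableSet R) (hAR : A ⊆ R) (hfin : volume R ≠ ⊤) :
    HasSum (fun n : ℕ => Real.exp (-(volume.real R)) / (n.factorial : ℝ) *
      ∫ x in Set.univ.pi (fun _ : Fin n => R), (LA A x : ℝ)) (G A) := by
  have hAfin : volume A ≠ ⊤ := ne_top_of_le_ne_top hfin (measure_mono hAR)
  have hvol : volume.real R = volume.real A + volume.real (R \ A) := by
    rw [measureReal_sdiff hAR hA]
    ring
  set a := volume.real A with ha
  set b := volume.real (R \ A) with hb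
  have hs1 : Summable fun n : ℕ => ‖I A n / (n.factorial : ℝ)‖ := (summable_I hA hAfin).norm
  have hs2 : Summable fun n : ℕ => ‖b ^ n / (n.factorial : ℝ)‖ :=
    (Real.summable_pow_div_factorial b).norm
  have hprod := tsum_mul_tsum_eq_tsum_sum_antidiagonal_of_summable_norm hs1 hs2
  have hsum := summable_norm_sum_mul_antidiagonal_of_summable_norm hs1 hs2
  have hterm : ∀ n : ℕ, Real.exp (-(volume.real R)) / (n.factorial : ℝ) *
      ∫ x in Set.univ.pi (fun _ : Fin n => R), (LA A x : ℝ) =
      Real.exp (-(volume.real R)) * ∑ kl ∈ Finset.HasAntidiagonal.antidiagonal n,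
        I A kl.1 / (kl.1.factorial : ℝ) * (b ^ kl.2 / (kl.2.factorial : ℝ)) := by
    intro n
    rw [integral_restrict n hA hR hAR hfin, ← hb, Finset.Nat.sum_antidiagonal_eq_sum_range_succ
      (fun k l => I A k / (k.factorial : ℝ) * (b ^ l / (l.factorial : ℝ))), div_mul_eq_mul_div,
      mul_div_assoc, Finset.sum_div]
    congr 1
    apply Finset.sum_congr rfl
    intro m hm
    have hmn : m ≤ n := Nat.lt_succ_iff.1 (Finset.mem_range.1 hm)
    rw [Nat.cast_choose ℝ hmn]
    have h1 : (n.factorial : ℝ) ≠ 0 := by positivity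
    have h2 : (m.factorial : ℝ) ≠ 0 := by positivity
    have h3 : ((n - m).factorial : ℝ) ≠ 0 := by positivity
    field_simp
  have hG : G A = Real.exp (-(volume.real R)) * ∑' n : ℕ, ∑ kl ∈ Finset.HasAntidiagonal.antidiagonal n,
        I A kl.1 / (kl.1.factorial : ℝ) * (b ^ kl.2 / (kl.2.factorial : ℝ)) := by
    rw [← hprod]
    have hexp : ∑' n : ℕ, b ^ n / (n.factorial : ℝ) = Real.exp b := by
      rw [Real.exp_eq_exp_ℝ, NormedSpace.exp_eq_tsum_div]
    rw [hexp, hvol]
    unfold G
    rw [← ha]
    have : ∀ n : ℕ, Real.exp (-a) / (n.factorial : ℝ) * I A n =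
      Real.exp (-a) * (I A n / (n.factorial : ℝ)) := fun n => by ring
    simp_rw [this]
    rw [tsum_mul_left, mul_comm (∑' n : ℕ, I A n / (n.factorial : ℝ)) (Real.exp b), ← mul_assoc,
      ← Real.exp_add]
    congr 2
    ring
  simp_rw [hterm]
  rw [hG]
  exact (hsum.of_norm.hasSum).mul_left _

lemma G_add_le {A C R : Set (ℝ × ℝ)} (hA : MeasurableSet A) (hC : MeasurableSet C)
    (hR : MeasurableSet R) (hAR : A ⊆ R) (hCR : C ⊆ R) (hfin : volume R ≠ ⊤)
    (hAC : ∀ p ∈ A, ∀ q ∈ C, p.1 < q.1 ∧ p.2 < q.2) :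
    G A + G C ≤ G R := by
  have h1 := hasSum_restrict hA hR hAR hfin
  have h2 := hasSum_restrict hC hR hCR hfin
  have h3 := hasSum_restrict hR hR Subset.rfl hfin
  refine hasSum_le (fun n => ?_) (h1.add h2) h3
  rw [← mul_add]
  have hT : volume (Set.univ.pi (fun _ : Fin n => R)) ≠ ⊤ := volume_pi_ne_top fun _ => hfin
  rw [← integral_add (integrableOn_LA hA hT) (integrableOn_LA hC hT)]
  apply mul_le_mul_of_nonneg_left _ (by positivity)
  apply integral_mono
  · exact (integrableOn_LA hA hT).add (integrableOn_LA hC hT)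
  · exact integrableOn_LA hR hT
  · intro x
    have := LA_add_le hAR hCR hAC x
    simp only [Pi.add_apply]
    exact_mod_cast this

/-- Translation invariance. -/
lemma I_translate (A : Set (ℝ × ℝ)) (v : ℝ × ℝ) (n : ℕ) :
    I ((fun p => p + v) ⁻¹' A) n = I A n := by
  unfold I
  have hmp := measurePreserving_add_right (volume : Measure (Fin n → ℝ × ℝ)) (fun _ => v)
  have key := hmp.setIntegral_preimage_emb (measurableEmbedding_addRight (fun _ => v))
    (fun x : Fin n → ℝ × ℝ => (LA univ x : ℝ)) (Set.univ.pi (fun _ : Fin n => A))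
  rw [← key]
  congr 1
  · ext x
    congr 1
    exact (LA_univ_translate v x).symm

lemma G_translate (A : Set (ℝ × ℝ)) (v : ℝ × ℝ) :
    G ((fun p => p + v) ⁻¹' A) = G A := by
  unfold G
  have : volume.real ((fun p : ℝ × ℝ => p + v) ⁻¹' A) = volume.real A := by
    simp [measureReal_def]
  rw [this]
  simp_rw [I_translate]

end Pool.Agent.Lib_helper98.LIS
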