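import Mathlib
import Pool.Agent.Lib_helper98.LISPoisson2

set_option autoImplicit false

open MeasureTheory Set Filter Topology

namespace Pool.Agent.Lib_helper98.LIS

/-- The rotated rectangle of length `ℓ` and width `w`. -/
def Rect (ℓ w : ℝ) : Set (ℝ × ℝ) :=
  {p : ℝ × ℝ | 0 ≤ p.1 + p.2 ∧ p.1 + p.2 ≤ Real.sqrt 2 * ℓ ∧
    |p.1 - p.2| ≤ Real.sqrt 2 * w / 2}

/-- The linear map `(x, y) ↦ (x + y, x - y)`. -/
noncomputable def rot : (ℝ × ℝ) →ₗ[ℝ] (ℝ × ℝ) :=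
  LinearMap.prod (LinearMap.fst ℝ ℝ ℝ + LinearMap.snd ℝ ℝ ℝ)
    (LinearMap.fst ℝ ℝ ℝ - LinearMap.snd ℝ ℝ ℝ)

lemma rot_apply (p : ℝ × ℝ) : rot p = (p.1 + p.2, p.1 - p.2) := rfl

lemma det_rot : LinearMap.det rot = -2 := by
  rw [← LinearMap.det_toMatrix (Module.Basis.finTwoProd ℝ), Matrix.det_fin_two]
  simp [LinearMap.toMatrix_apply, rot_apply]
  norm_num

lemma Rect_eq (ℓ w : ℝ) : Rect ℓ w =
    rot ⁻¹' (Icc 0 (Real.sqrt 2 * ℓ) ×ˢ Icc (-(Real.sqrt 2 * w / 2)) (Real.sqrt 2 * w / 2)) := by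
  ext p
  simp only [Rect, Set.mem_ofPred_eq, Set.mem_preimage, rot_apply, Set.mem_prod, Set.mem_Icc, abs_le]
  tauto

lemma volume_Rect (ℓ w : ℝ) (hℓ : 0 ≤ ℓ) (hw : 0 ≤ w) :
    volume (Rect ℓ w) = ENNReal.ofReal (ℓ * w) := by
  rw [Rect_eq, Measure.addHaar_preimage_linearMap _ (by rw [det_rot]; norm_num), det_rot,
    Measure.volume_eq_prod, Measure.prod_prod, Real.volume_Icc, Real.volume_Icc,
    ← ENNReal.ofReal_mul (by rw [sub_zero]; positivity), ← ENNReal.ofReal_mul (by positivity)]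
  congr 1
  have h2 : Real.sqrt 2 * Real.sqrt 2 = 2 := Real.mul_self_sqrt (by norm_num)
  have : |((-2 : ℝ))⁻¹| = 1 / 2 := by
    rw [abs_inv, abs_neg]
    norm_num
  rw [this]
  have : 1 / 2 * ((Real.sqrt 2 * ℓ - 0) * (Real.sqrt 2 * w / 2 - -(Real.sqrt 2 * w / 2)))
    = 1 / 2 * (Real.sqrt 2 * Real.sqrt 2) * (ℓ * w) := by ring
  rw [this, h2]
  ring

lemma measurableSet_Rect (ℓ w : ℝ) : MeasurableSet (Rect ℓ w) := by
  unfold Rect
  refine MeasurableSet.inter ?_ (MeasurableSet.inter ?_ ?_)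
  · exact measurableSet_le measurable_const (measurable_fst.add measurable_snd)
  · exact measurableSet_le (measurable_fst.add measurable_snd) measurable_const
  · exact measurableSet_le (measurable_fst.sub measurable_snd).abs measurable_const

lemma frozen_eq_G (ℓ w : ℝ) (hℓ : 0 ≤ ℓ) (hw : 0 ≤ w) :
    (∑' n : ℕ, Real.exp (-(ℓ * w)) / (n.factorial : ℝ) *
      ∫ x in Set.univ.pi (fun _ : Fin n =>
          {p : ℝ × ℝ | 0 ≤ p.1 + p.2 ∧ p.1 + p.2 ≤ Real.sqrt 2 * ℓ ∧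
            |p.1 - p.2| ≤ Real.sqrt 2 * w / 2}),
        (((sSup {k : ℕ | ∃ s : Finset (Fin n), s.card = k ∧
            ∀ i ∈ s, ∀ j ∈ s, i ≠ j →
              (((x i).1 < (x j).1 ∧ (x i).2 < (x j).2) ∨
               ((x j).1 < (x i).1 ∧ (x j).2 < (x i).2))}) : ℕ) : ℝ)) = G (Rect ℓ w) := by
  unfold G
  have hv : volume.real (Rect ℓ w) = ℓ * w := by
    rw [measureReal_def, volume_Rect ℓ w hℓ hw, ENNReal.toReal_ofReal (by positivity)]
  rw [hv]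
  congr 1
  ext n
  congr 1
  unfold I
  simp_rw [LA_univ_eq_sSup]
  rfl

lemma G_nonneg (A : Set (ℝ × ℝ)) : 0 ≤ G A := by
  unfold G
  exact tsum_nonneg fun n => mul_nonneg (by positivity) (I_nonneg A n)

lemma G_gap (ℓ₁ ℓ₂ w : ℝ) (h1 : 0 ≤ ℓ₁) (h2 : 0 ≤ ℓ₂) (hw : 0 < w) :
    G (Rect ℓ₁ w) + G (Rect ℓ₂ w) ≤ G (Rect (ℓ₁ + 2 * w + ℓ₂) w) := by
  have hs : 0 < Real.sqrt 2 := by positivity
  set c : ℝ := Real.sqrt 2 * (ℓ₁ + 2 * w) / 2 with hc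
  rw [← G_translate (Rect ℓ₂ w) (-(c, c))]
  apply G_add_le (measurableSet_Rect _ _) _ (measurableSet_Rect _ _)
  · intro p hp
    simp only [Rect, Set.mem_ofPred_eq] at hp ⊢
    refine ⟨hp.1, hp.2.1.trans ?_, hp.2.2⟩
    nlinarith
  · intro p hp
    simp only [Rect, Set.mem_ofPred_eq, Set.mem_preimage, Prod.fst_add, Prod.snd_add, Prod.neg_mk]
      at hp ⊢
    obtain ⟨hp1, hp2, hp3⟩ := hp
    refine ⟨?_, ?_, ?_⟩
    · nlinarith
    · nlinarith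
    · have : p.1 + -c - (p.2 + -c) = p.1 - p.2 := by ring
      rwa [this] at hp3
  · rw [volume_Rect _ _ (by positivity) hw.le]
    exact ENNReal.ofReal_ne_top
  · intro p hp q hq
    simp only [Rect, Set.mem_ofPred_eq, Set.mem_preimage, Prod.fst_add, Prod.snd_add, Prod.neg_mk]
      at hp hq
    obtain ⟨hp1, hp2, hp3⟩ := hp
    obtain ⟨hq1, hq2, hq3⟩ := hq
    have hp4 := abs_le.1 hp3
    have hq4 := abs_le.1 hq3
    have hsw : 0 < Real.sqrt 2 * w := by positivity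
    constructor <;> nlinarith [hp4.1, hp4.2, hq4.1, hq4.2]
  · exact (measurable_id.add_const _) (measurableSet_Rect _ _)

/-- Doubling: with `H ℓ = G (Rect (ℓ - 2 w) w)` one has `2 ^ j * H ℓ ≤ H (2 ^ j * ℓ)`. -/
lemma G_pow (ℓ w : ℝ) (hℓ : 0 ≤ ℓ) (hw : 0 < w) (j : ℕ) :
    2 ^ j * G (Rect ℓ w) ≤ G (Rect (2 ^ j * (ℓ + 2 * w) - 2 * w) w) := by
  induction j with
  | zero => simp
  | succ j ih =>
    have hpow : (1 : ℝ) ≤ 2 ^ j := one_le_pow₀ (by norm_num)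
    have hnn : 0 ≤ 2 ^ j * (ℓ + 2 * w) - 2 * w := by nlinarith
    have h := G_gap (2 ^ j * (ℓ + 2 * w) - 2 * w) (2 ^ j * (ℓ + 2 * w) - 2 * w) w hnn hnn hw
    have e : 2 ^ j * (ℓ + 2 * w) - 2 * w + 2 * w + (2 ^ j * (ℓ + 2 * w) - 2 * w)
      = 2 ^ (j + 1) * (ℓ + 2 * w) - 2 * w := by ring
    rw [e] at h
    have : (2 : ℝ) ^ (j + 1) * G (Rect ℓ w) = 2 * (2 ^ j * G (Rect ℓ w)) := by ring
    rw [this]
    linarith

/-- For fixed width, an expansion `a ℓ + b √ℓ (1 + o(1))` with `b > 0` is impossible. -/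
lemma no_expansion (w a b : ℝ) (hw : 0 < w) (hb : 0 < b) (M : ℝ) :
    ∃ ℓ : ℝ, M ≤ ℓ ∧ ¬ (b / 2 * Real.sqrt ℓ ≤ G (Rect ℓ w) - a * ℓ ∧
      G (Rect ℓ w) - a * ℓ ≤ 3 * b / 2 * Real.sqrt ℓ) := by
  by_contra hcon
  push Not at hcon
  -- choose a large `ℓ`
  obtain ⟨ℓ, hℓM, hℓ0, hℓ1⟩ : ∃ ℓ : ℝ, M ≤ ℓ ∧ 0 ≤ ℓ ∧ 1 + 2 * |a| * w ≤ b / 2 * Real.sqrt ℓ := by
    refine ⟨max (max M 0) (((1 + 2 * |a| * w) / (b / 2)) ^ 2), ?_, ?_, ?_⟩
    · exact (le_max_left M 0).trans (le_max_left _ _)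
    · exact (le_max_right M 0).trans (le_max_left _ _)
    · have h1 : (1 + 2 * |a| * w) / (b / 2) ≤
        Real.sqrt (max (max M 0) (((1 + 2 * |a| * w) / (b / 2)) ^ 2)) :=
        Real.le_sqrt_of_sq_le (le_max_right _ _)
      have h2 := mul_le_mul_of_nonneg_left h1 (by positivity : 0 ≤ b / 2)
      have h3 : b / 2 * ((1 + 2 * |a| * w) / (b / 2)) = 1 + 2 * |a| * w := by
        field_simp
      linarith
  have hlow := (hcon ℓ hℓM).1
  set D : ℝ := 3 * b / 2 * Real.sqrt (ℓ + 2 * w) with hD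
  have hDnn : 0 ≤ D := by positivity
  -- choose a large `i`
  obtain ⟨i, hi⟩ : ∃ i : ℕ, D + 2 * |a| * w < 2 ^ i := pow_unbounded_of_one_lt _ (by norm_num)
  have hkey := G_pow ℓ w hℓ0 hw (2 * i)
  have hpow1 : (1 : ℝ) ≤ 2 ^ i := one_le_pow₀ (by norm_num)
  have hpow : (2 : ℝ) ^ (2 * i) = 2 ^ i * 2 ^ i := by rw [two_mul, pow_add]
  rw [hpow] at hkey
  set y : ℝ := 2 ^ i with hy
  have hyy : 1 ≤ y * y := by nlinarith
  have hL : ℓ ≤ y * y * (ℓ + 2 * w) - 2 * w := by nlinarith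
  have hup := (hcon _ (hℓM.trans hL)).2
  have hsq : Real.sqrt (y * y * (ℓ + 2 * w) - 2 * w) ≤ y * Real.sqrt (ℓ + 2 * w) := by
    have h1 : y * Real.sqrt (ℓ + 2 * w) = Real.sqrt (y * y * (ℓ + 2 * w)) := by
      rw [Real.sqrt_mul (by positivity), Real.sqrt_mul_self (by positivity)]
    rw [h1]
    exact Real.sqrt_le_sqrt (by linarith)
  have hup2 : G (Rect (y * y * (ℓ + 2 * w) - 2 * w) w) ≤
      a * (y * y * (ℓ + 2 * w) - 2 * w) + D * y := by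
    have : 3 * b / 2 * Real.sqrt (y * y * (ℓ + 2 * w) - 2 * w) ≤
      3 * b / 2 * (y * Real.sqrt (ℓ + 2 * w)) :=
      mul_le_mul_of_nonneg_left hsq (by positivity)
    rw [hD]
    linarith
  have hlow2 : y * y * (a * ℓ + (1 + 2 * |a| * w)) ≤ y * y * G (Rect ℓ w) := by
    apply mul_le_mul_of_nonneg_left _ (by positivity)
    linarith
  have h3 : y * y * (a * ℓ + (1 + 2 * |a| * w)) ≤
      a * (y * y * (ℓ + 2 * w) - 2 * w) + D * y := hlow2.trans (hkey.trans hup2)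
  have habs : a ≤ |a| := le_abs_self a
  have habs' : -a ≤ |a| := neg_le_abs a
  have h4 : a * (y * y * (2 * w)) ≤ |a| * (y * y * (2 * w)) :=
    mul_le_mul_of_nonneg_right habs (by positivity)
  have h5 : -a * (2 * w) ≤ |a| * (2 * w) := mul_le_mul_of_nonneg_right habs' (by positivity)
  have h6 : y * y ≤ |a| * (2 * w) + D * y := by nlinarith
  have h7 : |a| * (2 * w) ≤ |a| * (2 * w) * y := by
    have : 0 ≤ |a| * (2 * w) := by positivity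
    nlinarith
  have h8 : y * y ≤ (|a| * (2 * w) + D) * y := by nlinarith
  have hypos : 0 < y := by positivity
  have h9 : y ≤ |a| * (2 * w) + D := le_of_mul_le_mul_right h8 hypos
  linarith

end Pool.Agent.Lib_helper98.LIS
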