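import Mathlib
import Pool.Agent.Lib_helper98.LISMain

set_option autoImplicit false

open MeasureTheory Set Filter Topology

namespace Pool.Agent.Lib_helper98.LIS

/-- Subadditivity over a partition. -/
lemma LA_le_add {ι : Type*} [Fintype ι] {A C R : Set (ℝ × ℝ)} (hR : R ⊆ A ∪ C) (x : ι → ℝ × ℝ) :
    LA R x ≤ LA A x + LA C x := by
  classical
  obtain ⟨s, hs, hs'⟩ := exists_LA R x
  rw [← hs', ← Finset.card_filter_add_card_filter_not (s := s) (fun i => x i ∈ A)]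
  apply add_le_add
  · apply le_LA
    refine ⟨fun i hi => (Finset.mem_filter.1 hi).2, fun i hi j hj hij =>
      hs.2 i (Finset.mem_filter.1 hi).1 j (Finset.mem_filter.1 hj).1 hij⟩
  · apply le_LA
    refine ⟨fun i hi => ?_, fun i hi j hj hij =>
      hs.2 i (Finset.mem_filter.1 hi).1 j (Finset.mem_filter.1 hj).1 hij⟩
    obtain ⟨h1, h2⟩ := Finset.mem_filter.1 hi
    rcases hR (hs.1 i h1) with h | h
    · exact absurd h h2
    · exact h

lemma G_le_add {A C R : Set (ℝ × ℝ)} (hA : MeasurableSet A) (hC : MeasurableSet C)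
    (hR : MeasurableSet R) (hAR : A ⊆ R) (hCR : C ⊆ R) (hfin : volume R ≠ ⊤)
    (hunion : R ⊆ A ∪ C) :
    G R ≤ G A + G C := by
  have h1 := hasSum_restrict hA hR hAR hfin
  have h2 := hasSum_restrict hC hR hCR hfin
  have h3 := hasSum_restrict hR hR Subset.rfl hfin
  refine hasSum_le (fun n => ?_) h3 (h1.add h2)
  rw [← mul_add]
  have hT : volume (Set.univ.pi (fun _ : Fin n => R)) ≠ ⊤ := volume_pi_ne_top fun _ => hfin
  rw [← integral_add (integrableOn_LA hA hT) (integrableOn_LA hC hT)]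
  apply mul_le_mul_of_nonneg_left _ (by positivity)
  apply integral_mono
  · exact integrableOn_LA hR hT
  · exact (integrableOn_LA hA hT).add (integrableOn_LA hC hT)
  · intro x
    have := LA_le_add hunion x
    simp only
    exact_mod_cast this

lemma LA_mono {ι : Type*} [Fintype ι] {A R : Set (ℝ × ℝ)} (hAR : A ⊆ R) (x : ι → ℝ × ℝ) :
    LA A x ≤ LA R x := by
  obtain ⟨s, hs, hs'⟩ := exists_LA A x
  rw [← hs']
  exact le_LA ⟨fun i hi => hAR (hs.1 i hi), hs.2⟩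

lemma G_mono {A R : Set (ℝ × ℝ)} (hA : MeasurableSet A)
    (hR : MeasurableSet R) (hAR : A ⊆ R) (hfin : volume R ≠ ⊤) :
    G A ≤ G R := by
  have h1 := hasSum_restrict hA hR hAR hfin
  have h3 := hasSum_restrict hR hR Subset.rfl hfin
  refine hasSum_le (fun n => ?_) h1 h3
  have hT : volume (Set.univ.pi (fun _ : Fin n => R)) ≠ ⊤ := volume_pi_ne_top fun _ => hfin
  apply mul_le_mul_of_nonneg_left _ (by positivity)
  apply integral_mono
  · exact integrableOn_LA hA hT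
  · exact integrableOn_LA hR hT
  · intro x
    have := LA_mono hAR x
    simp only
    exact_mod_cast this

lemma G_Rect_mono {ℓ ℓ' w : ℝ} (h : 0 ≤ ℓ) (hℓ : ℓ ≤ ℓ') (hw : 0 ≤ w) :
    G (Rect ℓ w) ≤ G (Rect ℓ' w) := by
  apply G_mono (measurableSet_Rect _ _) (measurableSet_Rect _ _)
  · intro p hp
    simp only [Rect, Set.mem_ofPred_eq] at hp ⊢
    refine ⟨hp.1, hp.2.1.trans ?_, hp.2.2⟩
    exact mul_le_mul_of_nonneg_left hℓ (by positivity)
  · rw [volume_Rect _ _ (h.trans hℓ) hw]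
    exact ENNReal.ofReal_ne_top

lemma G_Rect_sub (ℓ₁ ℓ₂ w : ℝ) (h1 : 0 ≤ ℓ₁) (h2 : 0 ≤ ℓ₂) (hw : 0 ≤ w) :
    G (Rect (ℓ₁ + ℓ₂) w) ≤ G (Rect ℓ₁ w) + G (Rect ℓ₂ w) := by
  have hs : 0 < Real.sqrt 2 := by positivity
  set c : ℝ := Real.sqrt 2 * ℓ₁ / 2 with hc
  rw [← G_translate (Rect ℓ₂ w) (-(c, c))]
  apply G_le_add (measurableSet_Rect _ _) _ (measurableSet_Rect _ _)
  · intro p hp
    simp only [Rect, Set.mem_ofPred_eq] at hp ⊢
    refine ⟨hp.1, hp.2.1.trans ?_, hp.2.2⟩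
    nlinarith
  · intro p hp
    simp only [Rect, Set.mem_ofPred_eq, Set.mem_preimage, Prod.fst_add, Prod.snd_add, Prod.neg_mk]
      at hp ⊢
    obtain ⟨hp1, hp2, hp3⟩ := hp
    have : 0 ≤ Real.sqrt 2 * ℓ₁ := by positivity
    refine ⟨?_, ?_, ?_⟩
    · nlinarith
    · nlinarith
    · have : p.1 + -c - (p.2 + -c) = p.1 - p.2 := by ring
      rwa [this] at hp3
  · rw [volume_Rect _ _ (by positivity) hw]
    exact ENNReal.ofReal_ne_top
  · intro p hp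
    simp only [Rect, Set.mem_ofPred_eq, Set.mem_preimage, Prod.fst_add, Prod.snd_add, Prod.neg_mk,
      Set.mem_union] at hp ⊢
    obtain ⟨hp1, hp2, hp3⟩ := hp
    rcases le_total (p.1 + p.2) (Real.sqrt 2 * ℓ₁) with h | h
    · exact Or.inl ⟨hp1, h, hp3⟩
    · refine Or.inr ⟨?_, ?_, ?_⟩
      · nlinarith
      · nlinarith
      · have : p.1 + -c - (p.2 + -c) = p.1 - p.2 := by ring
        rwa [this]
  · exact (measurable_id.add_const _) (measurableSet_Rect _ _)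

lemma G_Rect_nsub (ℓ w : ℝ) (h : 0 ≤ ℓ) (hw : 0 ≤ w) (n : ℕ) :
    G (Rect (n * ℓ) w) ≤ n * G (Rect ℓ w) + G (Rect 0 w) := by
  induction n with
  | zero => simp
  | succ n ih =>
    have := G_Rect_sub (n * ℓ) ℓ w (by positivity) h hw
    push_cast
    have e : ((n : ℝ) + 1) * ℓ = n * ℓ + ℓ := by ring
    rw [e]
    linarith

lemma G_nsup (ℓ w : ℝ) (hℓ : 0 ≤ ℓ) (hw : 0 < w) (n : ℕ) :
    ((n : ℝ) + 1) * G (Rect ℓ w) ≤ G (Rect (((n : ℝ) + 1) * (ℓ + 2 * w) - 2 * w) w) := by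
  induction n with
  | zero => simp
  | succ n ih =>
    have hnn : 0 ≤ ((n : ℝ) + 1) * (ℓ + 2 * w) - 2 * w := by
      have : (0 : ℝ) ≤ n := Nat.cast_nonneg n
      nlinarith
    have h := G_gap (((n : ℝ) + 1) * (ℓ + 2 * w) - 2 * w) ℓ w hnn hℓ hw
    have e : ((n : ℝ) + 1) * (ℓ + 2 * w) - 2 * w + 2 * w + ℓ
      = (((n + 1 : ℕ) : ℝ) + 1) * (ℓ + 2 * w) - 2 * w := by push_cast; ring
    rw [e] at h
    push_cast at h ⊢
    linarith

/-- The comparison of two lengths for a fixed width. -/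
lemma G_compare (ℓ ℓ' w : ℝ) (hℓ : 0 ≤ ℓ) (hℓ' : 0 < ℓ') (hw : 0 < w) :
    ℓ' * G (Rect ℓ w) ≤ (ℓ + 2 * w) * G (Rect ℓ' w) := by
  set g := G (Rect ℓ w) with hg
  set g' := G (Rect ℓ' w) with hg'
  set g0 := G (Rect 0 w) with hg0
  have hgn : 0 ≤ g := G_nonneg _
  have hgn' : 0 ≤ g' := G_nonneg _
  have hgn0 : 0 ≤ g0 := G_nonneg _
  have key : ∀ n : ℕ, ((n : ℝ) + 1) * (ℓ' * g - (ℓ + 2 * w) * g') ≤ ℓ' * (g' + g0) := by
    intro n
    have hN : 0 < (n : ℝ) + 1 := by positivity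
    obtain ⟨M, hM1, hM2⟩ : ∃ M : ℕ, ((n : ℝ) + 1) * (ℓ + 2 * w) / ℓ' ≤ M ∧
        (M : ℝ) ≤ ((n : ℝ) + 1) * (ℓ + 2 * w) / ℓ' + 1 := by
      refine ⟨⌈((n : ℝ) + 1) * (ℓ + 2 * w) / ℓ'⌉₊, Nat.le_ceil _, ?_⟩
      exact (Nat.ceil_lt_add_one (by positivity)).le
    have hnn : 0 ≤ ((n : ℝ) + 1) * (ℓ + 2 * w) - 2 * w := by
      have : (0 : ℝ) ≤ n := Nat.cast_nonneg n
      nlinarith
    have h1 := G_nsup ℓ w hℓ hw n
    have hle : ((n : ℝ) + 1) * (ℓ + 2 * w) - 2 * w ≤ M * ℓ' := by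
      rw [div_le_iff₀ hℓ'] at hM1
      linarith
    have h2 := G_Rect_mono hnn hle hw.le
    have h3 := G_Rect_nsub ℓ' w hℓ'.le hw.le M
    have h4 : ((n : ℝ) + 1) * g ≤ M * g' + g0 := h1.trans (h2.trans h3)
    have h5 : (M : ℝ) * ℓ' ≤ ((n : ℝ) + 1) * (ℓ + 2 * w) + ℓ' := by
      have := mul_le_mul_of_nonneg_right hM2 hℓ'.le
      rw [add_mul, div_mul_cancel₀ _ hℓ'.ne', one_mul] at this
      exact this
    have h6 : ℓ' * (((n : ℝ) + 1) * g) ≤ ℓ' * (M * g' + g0) := mul_le_mul_of_nonneg_left h4 hℓ'.le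
    have h7 : (M : ℝ) * ℓ' * g' ≤ (((n : ℝ) + 1) * (ℓ + 2 * w) + ℓ') * g' :=
      mul_le_mul_of_nonneg_right h5 hgn'
    nlinarith
  by_contra hcon
  push Not at hcon
  obtain ⟨n, hn⟩ := exists_nat_gt (ℓ' * (g' + g0) / (ℓ' * g - (ℓ + 2 * w) * g'))
  have hpos : 0 < ℓ' * g - (ℓ + 2 * w) * g' := by linarith
  rw [div_lt_iff₀ hpos] at hn
  have := key n
  nlinarith

end Pool.Agent.Lib_helper98.LIS
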